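import Mathlib

/-!
# MP_72856e_co: clique graph `C_5`, smallest clique 7, domatic number at most 6 (Q1 is false)

Five cliques `Q_i` of order 7 arranged in a cycle; consecutive ones share three vertices and each
has one private vertex.
-/

namespace Pool.Agent.Results.MP_72856e_co.Twenty

open SimpleGraph Finset

/-- `D` is dominating. -/
def Dominating {V : Type} (G : SimpleGraph V) (D : Set V) : Prop :=
  ∀ v, v ∉ D → ∃ u ∈ D, G.Adj v u

/-- The domatic number: the largest `k` such that `V` is partitioned into `k` dominating sets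
(the classes of a map `V → Fin k`). -/
noncomputable def domatic {V : Type} (G : SimpleGraph V) : ℕ :=
  sSup {k | ∃ c : V → Fin k, ∀ j, Dominating G {v | c v = j}}

/-- The cliques of `G`: maximal complete subgraphs, as vertex sets. -/
def Cliques {V : Type} (G : SimpleGraph V) : Type := {Q : Set V // Maximal G.IsClique Q}

/-- The clique graph: distinct cliques are adjacent when they share a vertex. -/
def cliqueGraph {V : Type} (G : SimpleGraph V) : SimpleGraph (Cliques G) where
  Adj P Q := P ≠ Q ∧ (P.1 ∩ Q.1).Nonempty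
  symm := ⟨fun _ _ h => ⟨h.1.symm, by rw [Set.inter_comm]; exact h.2⟩⟩
  loopless := ⟨fun _ h => h.1 rfl⟩

/-- The order of a smallest clique. -/
noncomputable def minClique {V : Type} (G : SimpleGraph V) : ℕ :=
  sInf {k | ∃ Q : Cliques G, Q.1.ncard = k}

abbrev W := Fin 5 × Fin 4

def mem (x : W) (i : Fin 5) : Prop := x.1 = i ∨ (x.1 + 1 = i ∧ x.2 ≠ 0)

instance (x : W) (i : Fin 5) : Decidable (mem x i) := by unfold mem; infer_instance

def H : SimpleGraph W where
  Adj x y := x ≠ y ∧ ∃ i, mem x i ∧ mem y i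
  symm := ⟨fun _ _ h => ⟨h.1.symm, h.2.imp fun _ h => h.symm⟩⟩
  loopless := ⟨fun _ h => h.1 rfl⟩

def Q (i : Fin 5) : Set W := {x | mem x i}

theorem Q_clique (i : Fin 5) : H.IsClique (Q i) := fun _ hx _ hy hne => ⟨hne, i, hx, hy⟩

theorem sub (S : Set W) (hS : H.IsClique S) : ∃ i, S ⊆ Q i := by
  by_contra h
  simp only [not_exists, Set.not_subset] at h
  choose x hx hx' using h
  have hadj : ∀ i j, x i = x j ∨ ∃ l, mem (x i) l ∧ mem (x j) l := fun i j => by
    by_cases e : x i = x j
    · exact Or.inl e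
    · exact Or.inr (hS (hx i) (hx j) e).2
  have key : ∀ a b c : W, ¬ mem b a.1 → ¬ mem c (a.1 + 1) →
      (a = b ∨ ∃ l, mem a l ∧ mem b l) → (a = c ∨ ∃ l, mem a l ∧ mem c l) →
      (b = c ∨ ∃ l, mem b l ∧ mem c l) → False := by decide +kernel
  exact key (x 0) (x (x 0).1) (x ((x 0).1 + 1)) (hx' _) (hx' _) (hadj _ _) (hadj _ _) (hadj _ _)

theorem Q_le (i j : Fin 5) (h : Q i ⊆ Q j) : i = j := by
  have := @h (i, 0) (Or.inl rfl)
  rcases this with h | h
  · exact h
  · exact absurd rfl h.2

theorem Q_max (i : Fin 5) : Maximal H.IsClique (Q i) := by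
  refine ⟨Q_clique i, fun S hS hle => ?_⟩
  obtain ⟨j, hj⟩ := sub S hS
  rw [Q_le i j (hle.trans hj)]
  exact hj

theorem eq_Q (P : Cliques H) : ∃ i, P.1 = Q i := by
  obtain ⟨i, hi⟩ := sub P.1 P.2.1
  exact ⟨i, le_antisymm hi (P.2.2 (Q_clique i) hi)⟩

noncomputable def iso : cycleGraph 5 ≃g cliqueGraph H where
  toEquiv := Equiv.ofBijective (fun i => ⟨Q i, Q_max i⟩)
    ⟨fun i j h => Q_le i j (le_of_eq (congrArg Subtype.val h)), fun P => by
      obtain ⟨i, hi⟩ := eq_Q P
      exact ⟨i, Subtype.ext hi.symm⟩⟩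
  map_rel_iff' := by
    intro i j
    have k : ∀ i j : Fin 5, (i ≠ j ∧ ∃ x : W, mem x i ∧ mem x j) ↔ (cycleGraph 5).Adj i j := by
      decide +kernel
    rw [← k]
    refine and_congr (not_congr ⟨fun h => Q_le i j (le_of_eq (congrArg Subtype.val h)),
      fun h => by rw [h]⟩) Iff.rfl

theorem hmin : minClique H = 7 := by
  have h : ∀ i, (Q i).ncard = 7 := by
    intro i
    have : Q i = ((univ.filter fun x => mem x i : Finset W) : Set W) := by ext x; simp [Q]
    rw [this, Set.ncard_coe_finset]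
    clear this
    revert i
    decide +kernel
  have : {k | ∃ P : Cliques H, P.1.ncard = k} = {7} := by
    ext k
    constructor
    · rintro ⟨P, rfl⟩
      obtain ⟨i, hi⟩ := eq_Q P
      rw [hi]; exact h i
    · rintro rfl
      exact ⟨⟨Q 0, Q_max 0⟩, h 0⟩
  rw [minClique, this, csInf_singleton]

theorem hdom : domatic H ≤ 6 := by
  refine csSup_le' ?_
  rintro k ⟨c, hc⟩
  have h1 : ∀ j i, ∃ x, c x = j ∧ mem x i := by
    intro j i
    by_cases h : c (i, 0) = j
    · exact ⟨_, h, Or.inl rfl⟩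
    · obtain ⟨u, hu, -, l, h1, h2⟩ := hc j (i, 0) h
      have : i = l := by
        rcases h1 with h1 | h1
        · exact h1
        · exact absurd rfl h1.2
      exact ⟨u, hu, this ▸ h2⟩
  have h2 : ∀ j, 3 ≤ (univ.filter fun x => c x = j).card := by
    intro j
    by_contra hlt
    have k2 : ∀ a b : W, ∃ i, ¬ mem a i ∧ ¬ mem b i := by decide +kernel
    obtain ⟨a, ha, -⟩ := h1 j 0
    obtain ⟨i, hi, -⟩ := k2 a a
    obtain ⟨b, hb, hb'⟩ := h1 j i
    obtain ⟨l, l1, l2⟩ := k2 a b
    obtain ⟨d, hd, hd'⟩ := h1 j l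
    refine hlt (two_lt_card_iff.2 ⟨a, b, d, by simpa using ha, by simpa using hb, by simpa using hd,
      ?_, ?_, ?_⟩)
    · rintro rfl; exact hi hb'
    · rintro rfl; exact l1 hd'
    · rintro rfl; exact l2 hd'
  have h3 := card_eq_sum_card_fiberwise (s := univ) (t := univ) (f := c) fun _ _ => mem_univ _
  have h4 := card_nsmul_le_sum univ _ 3 fun j _ => h2 j
  rw [← h3] at h4
  simp only [card_univ, Fintype.card_fin, Fintype.card_prod, smul_eq_mul] at h4
  show k ≤ 6
  omega

/-- A graph whose clique graph is the 5-cycle and whose domatic number is smaller than the order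
of its smallest clique. -/
theorem result : ∃ G : SimpleGraph (Fin 5 × Fin 4),
    Nonempty (cliqueGraph G ≃g cycleGraph 5) ∧ domatic G < minClique G :=
  ⟨H, ⟨iso.symm⟩, by have := hdom; rw [hmin]; omega⟩

end Pool.Agent.Results.MP_72856e_co.Twenty
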